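import Pool.Agent.H58.SO.Basic

/-!
# The row PRM
-/

set_option autoImplicit false

namespace Pool.Agent.H16.SO

open Pool.Agent.H68.BP Pool.Agent.H58.SF Pool.Agent.H53.GC Pool.Agent.H53.NR
  Pool.Agent.H58.SO

theorem pf_PRM (hUKM : T_UKM) : T_PRM := by
  intro σ V X Θ _ M B 𝔸 D h hsit hne κ s
  obtain ⟨m, hm, hms, hmt, -⟩ := hUKM σ V X Θ M B 𝔸 D h hsit κ s
  obtain ⟨m0, hm0, h0s, h0t, -⟩ := hUKM σ V X Θ M B 𝔸 D h hsit gen s
  have h0 : ∀ t, tm B B m0 t = tyb B h gen (fun _ => t) := by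
    intro t
    by_cases ht : t = s
    · subst ht
      exact h0s
    · exact h0t t ht
  obtain ⟨t, ht⟩ := (hne m hm).2 (tyb B h gen (fun _ => s))
  by_cases hts : t = s
  · subst hts
    rw [← hms]
    exact ht
  · exfalso
    apply hts
    apply (hne m0 hm0).1
    rw [h0, h0, ← hmt t hts]
    exact ht

end Pool.Agent.H16.SO
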